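import Pool.Agent.H566R4.Stmts

set_option autoImplicit false

/-! Growth of finite-dimensional spaces of polynomials in one variable. -/

namespace Pool.Agent.H725R3.BOG

open Polynomial Module Pool.Agent.H566R4

variable {k : Type} [Field k]

theorem mX_apply (p : k[X]) : mX k p = X * p := rfl

theorem mX_inj : Function.Injective (mX k) := by
  intro p q h
  rw [mX_apply, mX_apply] at h
  exact mul_left_cancel₀ X_ne_zero h

theorem mulLeft_inj {g : k[X]} (hg : g ≠ 0) : Function.Injective (LinearMap.mulLeft k g) := by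
  intro p q h
  exact mul_left_cancel₀ hg h

theorem fr_map {f : k[X] →ₗ[k] k[X]} (hf : Function.Injective f) (p : Submodule k k[X]) :
    finrank k (p.map f) = finrank k p :=
  (Submodule.equivMapOfInjective f hf p).finrank_eq.symm

instance fd_degreeLT (n : ℕ) : FiniteDimensional k (degreeLT k n) :=
  Module.Finite.equiv (degreeLTEquiv k n).symm

theorem fr_degreeLT (n : ℕ) : finrank k (degreeLT k n) = n := by
  rw [(degreeLTEquiv k n).finrank_eq, Module.finrank_fin_fun]

/-- no finite-dimensional nonzero space is stable under multiplication by `X` -/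
theorem not_stable (U : Submodule k k[X]) [FiniteDimensional k U] (hU : U ≠ ⊥)
    (h : U.map (mX k) ≤ U) : False := by
  obtain ⟨u, hu, hu0⟩ := (Submodule.ne_bot_iff U).mp hU
  have hX : ∀ p ∈ U, X * p ∈ U := fun p hp => h ⟨p, hp, rfl⟩
  have hXn : ∀ (n : ℕ), ∀ p ∈ U, X ^ n * p ∈ U := by
    intro n
    induction n with
    | zero => intro p hp; rw [pow_zero, one_mul]; exact hp
    | succ n ih =>
      intro p hp
      rw [pow_succ', mul_assoc]
      exact hX _ (ih p hp)
  have hall : ∀ p : k[X], p * u ∈ U := by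
    intro p
    rw [p.as_sum_range_C_mul_X_pow, Finset.sum_mul]
    apply U.sum_mem
    intro i _
    rw [mul_assoc, C_mul']
    exact U.smul_mem _ (hXn i u hu)
  let f : k[X] →ₗ[k] U := LinearMap.codRestrict U (LinearMap.mulRight k u) hall
  have hf : Function.Injective f := by
    intro p q hpq
    have h1 : p * u = q * u := congrArg Subtype.val hpq
    exact mul_right_cancel₀ hu0 h1
  have hfin : Module.Finite k k[X] := Module.Finite.of_injective f hf
  exact Polynomial.not_finite hfin

theorem growth (U : Submodule k k[X]) [FiniteDimensional k U] (hU : U ≠ ⊥) :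
    finrank k U + 1 ≤ finrank k ↥(U ⊔ U.map (mX k)) := by
  by_contra hcon
  have h1 : finrank k ↥(U ⊔ U.map (mX k)) ≤ finrank k U := by omega
  have h2 : U = U ⊔ U.map (mX k) := Submodule.eq_of_le_of_finrank_le le_sup_left h1
  exact not_stable U hU (by
    conv_rhs => rw [h2]
    exact le_sup_right)

theorem smul_mem_aux (U : Submodule k k[X]) {g : k[X]} (hg : g ∈ U) :
    (degreeLT k 1).map (LinearMap.mulLeft k g) ≤ U := by
  rintro _ ⟨p, hp, rfl⟩
  have hp1 : p.degree < (1 : ℕ) := mem_degreeLT.mp hp
  have hp2 : p = C (p.coeff 0) := eq_C_of_degree_le_zero (by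
    by_contra hlt
    push Not at hlt
    have h3 : (0 : ℕ) < p.natDegree := natDegree_pos_iff_degree_pos.mpr hlt
    have h4 : p ≠ 0 := by
      rintro rfl
      simp at h3
    rw [degree_eq_natDegree h4] at hp1
    have : p.natDegree < 1 := by exact_mod_cast hp1
    omega)
  change g * p ∈ U
  rw [hp2, mul_comm, C_mul']
  exact U.smul_mem _ hg

theorem main (n : ℕ) : ∀ (U : Submodule k k[X]) [FiniteDimensional k U], finrank k U = n + 1 →
    finrank k ↥(U ⊔ U.map (mX k)) ≤ finrank k U + 1 →
    ∃ g : k[X], g ≠ 0 ∧ U = (degreeLT k (finrank k U)).map (LinearMap.mulLeft k g) := by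
  induction n with
  | zero =>
    intro U _ hn _
    have hU : U ≠ ⊥ := by
      rintro rfl
      rw [finrank_bot] at hn
      omega
    obtain ⟨g, hg, hg0⟩ := (Submodule.ne_bot_iff U).mp hU
    refine ⟨g, hg0, ?_⟩
    rw [hn]
    refine (Submodule.eq_of_le_of_finrank_eq (smul_mem_aux U hg) ?_).symm
    rw [fr_map (mulLeft_inj hg0), fr_degreeLT, hn]
  | succ n ih =>
    intro U _ hn hle
    set U1 := U ⊓ U.comap (mX k) with hU1
    have hU1U : U1 ≤ U := inf_le_left
    have hfd1 : FiniteDimensional k U1 := Submodule.finiteDimensional_of_le hU1U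
    have hinf : U ⊓ U.map (mX k) = U1.map (mX k) := by
      ext w
      constructor
      · rintro ⟨hw, u, hu, rfl⟩
        exact ⟨u, ⟨hu, hw⟩, rfl⟩
      · rintro ⟨u, ⟨hu, hw⟩, rfl⟩
        exact ⟨hw, u, hu, rfl⟩
    have hdim := Submodule.finrank_sup_add_finrank_inf_eq U (U.map (mX k))
    rw [hinf, fr_map mX_inj, fr_map mX_inj] at hdim
    have hge : n + 1 ≤ finrank k U1 := by omega
    have hU1ne : U1 ≠ ⊥ := by
      intro h0
      rw [h0, finrank_bot] at hge
      omega
    have hsub : U1 ⊔ U1.map (mX k) ≤ U := by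
      refine sup_le hU1U ?_
      rintro _ ⟨u, hu, rfl⟩
      exact hu.2
    have hg1 := growth U1 hU1ne
    have hle1 : finrank k ↥(U1 ⊔ U1.map (mX k)) ≤ finrank k U := Submodule.finrank_mono hsub
    have hfr1 : finrank k U1 = n + 1 := by omega
    obtain ⟨g, hg0, hg⟩ := ih U1 hfr1 (by omega)
    refine ⟨g, hg0, ?_⟩
    rw [hfr1] at hg
    have hUeq : U1 ⊔ U1.map (mX k) = U := Submodule.eq_of_le_of_finrank_le hsub (by omega)
    have hUle : U ≤ (degreeLT k (n + 2)).map (LinearMap.mulLeft k g) := by
      rw [← hUeq]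
      have hmem : ∀ u ∈ U1, ∃ p : k[X], p.degree < ((n + 1 : ℕ) : WithBot ℕ) ∧ g * p = u := by
        intro u hu
        rw [hg] at hu
        obtain ⟨p, hp, rfl⟩ := hu
        exact ⟨p, mem_degreeLT.mp hp, rfl⟩
      refine sup_le ?_ ?_
      · intro u hu
        obtain ⟨p, hp, rfl⟩ := hmem u hu
        refine ⟨p, mem_degreeLT.mpr (hp.trans ?_), rfl⟩
        exact_mod_cast Nat.lt_succ_self (n + 1)
      · rintro _ ⟨u, hu, rfl⟩
        obtain ⟨p, hp, rfl⟩ := hmem u hu
        refine ⟨X * p, mem_degreeLT.mpr ?_, ?_⟩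
        · by_cases hp0 : p = 0
          · rw [hp0, mul_zero, degree_zero]
            exact WithBot.bot_lt_coe _
          · rw [degree_eq_natDegree hp0] at hp
            have h5 : p.natDegree < n + 1 := by exact_mod_cast hp
            rw [degree_eq_natDegree (mul_ne_zero X_ne_zero hp0), natDegree_X_mul hp0]
            have h6 : p.natDegree + 1 < n + 2 := by omega
            exact_mod_cast h6
        · change g * (X * p) = X * (g * p)
          ring
    rw [hn]
    refine Submodule.eq_of_le_of_finrank_eq hUle ?_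
    rw [fr_map (mulLeft_inj hg0), fr_degreeLT, hn]

theorem taskGM : TaskGM := by
  intro k _ U _ hU
  refine ⟨growth U hU, ?_⟩
  intro hle
  have hpos : 0 < finrank k U := by
    rw [Module.finrank_pos_iff]
    exact Submodule.nontrivial_iff_ne_bot.mpr hU
  exact main (finrank k U - 1) U (by omega) hle

end Pool.Agent.H725R3.BOG
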